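import Pool.Agent.N580.SY.Stm

set_option autoImplicit false

namespace Pool.Agent.N45.SYJet

open Pool.Agent.N580.SY MvPolynomial

theorem jet : JET := by
  classical
  intro V F N _ _ _ S val hval
  obtain ⟨hv, hc, ha, hm⟩ := hval
  refine ⟨?_, ?_, ?_, ?_⟩
  · intro n v hn
    have e := hv n v hn
    refine ⟨?_, ?_, ?_⟩
    · simp only [e, constantCoeff_X]
    · intro w
      simp only [e]
      by_cases hwv : w = v
      · subst hwv
        rw [pderiv_X_self, map_one, if_pos rfl]
      · rw [pderiv_X_of_ne (fun h => hwv h.symm), map_zero, if_neg hwv]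
    · intro w w' _
      simp only [e]
      by_cases hwv : w' = v
      · subst hwv
        rw [pderiv_X_self, pderiv_one, map_zero]
      · rw [pderiv_X_of_ne (fun h => hwv h.symm), map_zero, map_zero]
  · intro n a hn
    have e := hc n a hn
    refine ⟨?_, ?_, ?_⟩
    · simp only [e, constantCoeff_C]
    · intro w
      simp only [e, pderiv_C, map_zero]
    · intro w w' _
      simp only [e, pderiv_C, map_zero]
  · intro n hn
    have e := ha n hn
    refine ⟨?_, ?_, ?_⟩
    · simp only [e, map_sum, map_mul, constantCoeff_C]
    · intro w
      simp only [e, map_sum, pderiv_C_mul, map_mul, constantCoeff_C]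
    · intro w w' _
      simp only [e, map_sum, pderiv_C_mul, map_mul, constantCoeff_C]
  · intro n hn
    have e := hm n hn
    refine ⟨?_, ?_, ?_⟩
    · simp only [e, map_mul]
    · intro w
      simp only [e, Derivation.leibniz, smul_eq_mul, map_add, map_mul]
    · intro w w' _
      simp only [e, Derivation.leibniz, smul_eq_mul, map_add, map_mul]
      ring

end Pool.Agent.N45.SYJet
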